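import Mathlib
import Pool.Agent.Helper66.AO.MuFinal

/-!
If some point-finite Borel-additive family of subsets of `X` is not of bounded class, then
decomposability of such families of subsets of `X` fails to be compact at cofinally many regular
cardinals below some quasi-measurable cardinal, but not at `ℵ₁`.
-/

set_option autoImplicit false

universe u

namespace Pool.Agent.Results.MP_b624cf_lc.DecompositionGap

open Pool.Agent.Helper66.AO Pool.Agent.Helper66.PF

/-- For every metric space `X` and every point-finite Borel-additive family `𝒳` of subsets of `X`,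
either all unions of subfamilies of `𝒳` lie in one additive class `Σ_α` with `α < ω₁`, or there is
a quasi-measurable cardinal `κ` which is at most `#𝒳`, at most the continuum and less than the size
of every dense subset of `X` such that for every `1 ≤ μ < κ` there is a regular `τ`, with `μ < τ`,
`ℵ₁ < τ` and `τ < κ`, such that some point-finite Borel-additive family of exactly `τ` subsets of
`X` is not `μ`-decomposable, although all such families with fewer than `τ` members are. Here `S`
is the hierarchy of additive Borel classes of `X`. -/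
theorem result (X : Type u) [MetricSpace X] (𝒳 : Set (Set X))
    (h𝒳 : PointFiniteBorelAdditive 𝒳)
    (S : Ordinal.{0} → Set (Set X)) (hS1 : S 1 = {U : Set X | IsOpen U})
    (hS2 : ∀ α : Ordinal.{0}, 1 < α → α < (Cardinal.aleph 1).ord →
        S α = {A : Set X | ∃ f : ℕ → Set X, A = (⋃ n, f n) ∧
          ∀ n, ∃ β : Ordinal.{0}, 1 ≤ β ∧ β < α ∧ (f n)ᶜ ∈ S β}) :
    (∃ α : Ordinal.{0}, 1 ≤ α ∧ α < (Cardinal.aleph 1).ord ∧ ∀ 𝒴 ⊆ 𝒳, ⋃₀ 𝒴 ∈ S α) ∨
    ∃ κ : Cardinal.{u}, QuasiMeasurable κ ∧ κ ≤ Cardinal.mk 𝒳 ∧ κ ≤ Cardinal.continuum ∧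
      (∀ D : Set X, Dense D → κ < Cardinal.mk D) ∧
      ∀ μ : Cardinal.{u}, 1 ≤ μ → μ < κ → ∃ τ : Cardinal.{u}, τ.IsRegular ∧ μ < τ ∧
        Cardinal.aleph 1 < τ ∧ τ < κ ∧
        (∃ 𝒲 : Set (Set X), PointFiniteBorelAdditive 𝒲 ∧ Cardinal.mk 𝒲 = τ ∧
          ¬ Decomposable μ 𝒲) ∧
        ∀ 𝒲 : Set (Set X), PointFiniteBorelAdditive 𝒲 → Cardinal.mk 𝒲 < τ →
          Decomposable μ 𝒲 :=
  final_mu X 𝒳 h𝒳 S hS1 hS2

end Pool.Agent.Results.MP_b624cf_lc.DecompositionGap
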