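import Mathlib
import Pool.Agent.Helper66.SL.Final

/-!
Point-finite Borel-additive families of `σ`-locally separable sets are of bounded class, in ZFC;
the same for sets that are `σ`-locally of density at most `μ` unless there is a quasi-measurable
cardinal at most `μ`, the size of the family and the continuum.
-/

set_option autoImplicit false

universe u

namespace Pool.Agent.Results.MP_b624cf_lc.LocallySeparableMembers

open Pool.Agent.Helper66.PF Pool.Agent.Helper66.SL

/-- Let `X` be a metric space and `𝒳` a point-finite family of subsets of `X` all of whose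
subfamilies have a Borel union, and suppose that every member of `𝒳` is `σ`-locally of density at
most `μ`. Then either all unions of subfamilies lie in one additive class `Σ_α` with `α < ω₁`, or
there is a quasi-measurable cardinal `κ` (in particular `κ > ℵ₀`, and `κ` is a regular limit
cardinal) that is at most `μ`, at most the cardinality of `𝒳` and at most the continuum. For
`μ = ℵ₀` the second alternative is impossible. Here `S` is the hierarchy of additive Borel classes
of `X`. -/
theorem result (X : Type u) [MetricSpace X] (𝒳 : Set (Set X))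
    (hfin : ∀ x : X, {A : Set X | A ∈ 𝒳 ∧ x ∈ A}.Finite)
    (hadd : ∀ 𝒴 ⊆ 𝒳, @MeasurableSet X (borel X) (⋃₀ 𝒴))
    (μ : Cardinal.{u}) (hμ : ∀ A ∈ 𝒳, SigmaLocDn μ A)
    (S : Ordinal.{0} → Set (Set X)) (hS1 : S 1 = {U : Set X | IsOpen U})
    (hS2 : ∀ α : Ordinal.{0}, 1 < α → α < (Cardinal.aleph 1).ord →
        S α = {A : Set X | ∃ f : ℕ → Set X, A = (⋃ n, f n) ∧
          ∀ n, ∃ β : Ordinal.{0}, 1 ≤ β ∧ β < α ∧ (f n)ᶜ ∈ S β}) :
    (∃ α : Ordinal.{0}, 1 ≤ α ∧ α < (Cardinal.aleph 1).ord ∧ ∀ 𝒴 ⊆ 𝒳, ⋃₀ 𝒴 ∈ S α) ∨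
    ∃ κ : Cardinal.{u}, QuasiMeasurable κ ∧ κ.IsRegular ∧ Order.IsSuccLimit κ ∧
      κ ≤ μ ∧ κ ≤ Cardinal.mk 𝒳 ∧ κ ≤ Cardinal.continuum :=
  main_set X 𝒳 hfin hadd μ hμ S hS1 hS2

end Pool.Agent.Results.MP_b624cf_lc.LocallySeparableMembers
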