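import Mathlib
import Pool.Agent.Helper52.TameDich

/-!
Point-finite Borel-additive families: bounded class, unless there is a quasi-measurable cardinal
below the size of the family, the continuum and the density of the space that is neither
real-valued measurable nor of Cohen type, not tame and not decomposing.
-/

set_option autoImplicit false

universe u

namespace Pool.Agent.Results.MP_b624cf_lc.TameDichotomy

open Pool.Agent.Helper66.PF Pool.Agent.Helper52.Tame

/-- For every metric space `X` and every point-finite family `𝒳` of subsets of `X` all of whose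
subfamilies have a Borel union, either all these unions lie in one additive class `Σ_α` with
`α < ω₁`, or there is a quasi-measurable cardinal `κ` (in particular `κ` is a regular uncountable
limit cardinal) that is at most the cardinality of `𝒳`, at most the continuum, smaller than the
cardinality of every dense subset of `X`, and that is not real-valued measurable, not of Cohen
type, not tame and not decomposing, and every separable metric space all of whose subsets are
Borel is countable. Here `S` is the hierarchy of additive Borel classes of `X`. -/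
theorem result (X : Type u) [MetricSpace X] (𝒳 : Set (Set X))
    (hfin : ∀ x : X, {A : Set X | A ∈ 𝒳 ∧ x ∈ A}.Finite)
    (hadd : ∀ 𝒴 ⊆ 𝒳, @MeasurableSet X (borel X) (⋃₀ 𝒴))
    (S : Ordinal.{0} → Set (Set X)) (hS1 : S 1 = {U : Set X | IsOpen U})
    (hS2 : ∀ α : Ordinal.{0}, 1 < α → α < (Cardinal.aleph 1).ord →
        S α = {A : Set X | ∃ f : ℕ → Set X, A = (⋃ n, f n) ∧
          ∀ n, ∃ β : Ordinal.{0}, 1 ≤ β ∧ β < α ∧ (f n)ᶜ ∈ S β}) :
    (∃ α : Ordinal.{0}, 1 ≤ α ∧ α < (Cardinal.aleph 1).ord ∧ ∀ 𝒴 ⊆ 𝒳, ⋃₀ 𝒴 ∈ S α) ∨
    ((∃ κ : Cardinal.{u}, QuasiMeasurable κ ∧ κ.IsRegular ∧ Order.IsSuccLimit κ ∧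
        κ ≤ Cardinal.mk 𝒳 ∧ κ ≤ Cardinal.continuum ∧
        (∀ D : Set X, Dense D → κ < Cardinal.mk D) ∧
        ¬ RealValuedMeasurable κ ∧ ¬ CohenType κ ∧ ¬ TameCard κ ∧ ¬ Decomposing κ) ∧
      ∀ (Y : Type u) [MetricSpace Y] [TopologicalSpace.SeparableSpace Y],
        (∀ A : Set Y, @MeasurableSet Y (borel Y) A) → Countable Y) :=
  dichotomy_set' X 𝒳 hfin hadd S hS1 hS2

end Pool.Agent.Results.MP_b624cf_lc.TameDichotomy
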